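import Mathlib
import Pool.Agent.H16.PosetSat
import Pool.Agent.H16.GridCode

namespace Pool.Agent.Results.MP_8c6834_co.NotMonoDim

open Pool.Agent.H16.PosetSat Pool.Agent.H16.GridCode

/-- the order relation of the poset: `0 < 1`, `0 < 2`, `3 < 4`, and `5` is isolated -/
def rel (a b : ℕ) : Bool :=
  a == b || (a == 0 && b == 1) || (a == 0 && b == 2) || (a == 3 && b == 4)

/-- inclusion of bit sets -/
def leB (a b : ℕ) : Bool := a &&& b == a

theorem leB4 : ∀ a < 16, ∀ b < 16, leB a b = leG 2 4 a b := by decide +kernel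
theorem leB5 : ∀ a < 32, ∀ b < 32, leB a b = leG 2 5 a b := by decide +kernel

theorem chk1 : lowerCheck 16 12 (emb (List.range 16) leB rel 6) = true := by decide +kernel

theorem chk2 : upperCheck 32 6 leB rel [0, 3, 4, 14, 17, 21, 23, 25, 26, 29, 31] = true := by
  decide +kernel

theorem chk3 : emb [2, 3, 5, 6, 8, 9] leB rel 6 ≠ [] := by decide +kernel

/-- the underlying type of the poset -/
def PP : Type := Fin 6

theorem result : ∃ (P : Type) (_ : Fintype P) (_ : PartialOrder P),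
    Nonempty (P ↪o (Fin 4 → Fin 2)) ∧ satStar P 5 2 < satStar P 4 2 := by
  letI o : PartialOrder PP := mkOrder 6 rel (by decide) (by decide) (by decide)
  have hrel : ∀ x y : PP, rel ((Equiv.refl (Fin 6) : PP ≃ Fin 6) x)
      ((Equiv.refl (Fin 6) : PP ≃ Fin 6) y) = true ↔ x ≤ y := fun _ _ => Iff.rfl
  have h4 : ∀ x y : Fin 4 → Fin 2, leB (finFunctionFinEquiv x) (finFunctionFinEquiv y) = true ↔
      x ≤ y := fun x y => by
    rw [leB4 _ (finFunctionFinEquiv x).2 _ (finFunctionFinEquiv y).2, leG_iff]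
  have h5 : ∀ x y : Fin 5 → Fin 2, leB (finFunctionFinEquiv x) (finFunctionFinEquiv y) = true ↔
      x ≤ y := fun x y => by
    rw [leB5 _ (finFunctionFinEquiv x).2 _ (finFunctionFinEquiv y).2, leG_iff]
  refine ⟨PP, inferInstanceAs (Fintype (Fin 6)), o, ?_, ?_⟩
  · obtain ⟨l, hl⟩ := List.exists_mem_of_ne_nil _ chk3
    have := notFree_sound (P := PP) finFunctionFinEquiv (Equiv.refl (Fin 6)) leB rel h4 hrel
      Finset.univ _ l hl (by
        intro q hq
        obtain ⟨φ, rfl, h0, -⟩ := emb_sound _ _ _ _ _ hl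
        obtain ⟨i, hi, rfl⟩ := (mem_lst _ _ _).1 hq
        have h1 : φ i < 2 ^ 4 := by
          have := h0 i hi
          simp only [List.mem_cons, List.not_mem_nil, or_false] at this
          omega
        exact ⟨finFunctionFinEquiv.symm ⟨φ i, h1⟩, Finset.mem_univ _, by simp⟩)
    unfold Free at this
    obtain ⟨φ, -⟩ := not_not.1 this
    exact ⟨φ⟩
  · obtain ⟨F, hF, hc⟩ := upper (P := PP) finFunctionFinEquiv (Equiv.refl (Fin 6)) leB rel h5 hrel
      _ chk2
    have a1 : satStar PP 5 2 ≤ F.card := Nat.sInf_le ⟨F, hF, rfl⟩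
    haveI : Nonempty PP := ⟨(0 : Fin 6)⟩
    obtain ⟨G, hG⟩ := exists_saturated PP (Fin 4 → Fin 2)
    obtain ⟨G', hG', e⟩ : satStar PP 4 2 ∈
        {m | ∃ F : Finset (Fin 4 → Fin 2), Saturated PP F ∧ F.card = m} :=
      Nat.sInf_mem ⟨G.card, G, hG, rfl⟩
    have a2 := lower (P := PP) finFunctionFinEquiv (Equiv.refl (Fin 6)) leB rel h4 hrel 12 chk1
      G' hG'
    simp only [List.length_cons, List.length_nil] at hc
    omega

end Pool.Agent.Results.MP_8c6834_co.NotMonoDim
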