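import Mathlib
import Pool.Agent.H16.PosetSat
import Pool.Agent.H16.GridCode

namespace Pool.Agent.Results.MP_8c6834_co.NotMonoSide

open Pool.Agent.H16.PosetSat Pool.Agent.H16.GridCode

/-- the order relation of the poset: `0 < 1 < 2 < 3 < 4`, `5 < 6` and `0 < 6` -/
def rel (a b : ℕ) : Bool :=
  a == b || (decide (a < b) && decide (b ≤ 4)) || (a == 5 && b == 6) || (a == 0 && b == 6)

theorem chk1 : lowerCheck 16 14 (emb (List.range 16) (leG 4 2) rel 7) = true := by decide +kernel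

theorem chk2 : upperCheck 25 7 (leG 5 2) rel
    [0, 1, 4, 7, 14, 16, 17, 19, 20, 21, 22, 23, 24] = true := by
  decide +kernel

theorem chk3 : emb [1, 2, 3, 7, 11, 12, 13] (leG 4 2) rel 7 ≠ [] := by decide +kernel

/-- the underlying type of the poset -/
def PP : Type := Fin 7

theorem result : ∃ (P : Type) (_ : Fintype P) (_ : PartialOrder P),
    Nonempty (P ↪o (Fin 2 → Fin 4)) ∧ satStar P 2 5 < satStar P 2 4 := by
  letI o : PartialOrder PP := mkOrder 7 rel (by decide) (by decide) (by decide)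
  have hrel : ∀ x y : PP, rel ((Equiv.refl (Fin 7) : PP ≃ Fin 7) x)
      ((Equiv.refl (Fin 7) : PP ≃ Fin 7) y) = true ↔ x ≤ y := fun _ _ => Iff.rfl
  have h4 := leG_iff 4 2
  have h5 := leG_iff 5 2
  refine ⟨PP, inferInstanceAs (Fintype (Fin 7)), o, ?_, ?_⟩
  · obtain ⟨l, hl⟩ := List.exists_mem_of_ne_nil _ chk3
    have := notFree_sound (P := PP) finFunctionFinEquiv (Equiv.refl (Fin 7)) (leG 4 2) rel h4 hrel
      Finset.univ _ l hl (by
        intro q hq
        obtain ⟨φ, rfl, h0, -⟩ := emb_sound _ _ _ _ _ hl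
        obtain ⟨i, hi, rfl⟩ := (mem_lst _ _ _).1 hq
        have h1 : φ i < 4 ^ 2 := by
          have := h0 i hi
          simp only [List.mem_cons, List.not_mem_nil, or_false] at this
          omega
        exact ⟨finFunctionFinEquiv.symm ⟨φ i, h1⟩, Finset.mem_univ _, by simp⟩)
    unfold Free at this
    obtain ⟨φ, -⟩ := not_not.1 this
    exact ⟨φ⟩
  · obtain ⟨F, hF, hc⟩ := upper (P := PP) finFunctionFinEquiv (Equiv.refl (Fin 7)) (leG 5 2) rel h5 hrel
      _ chk2
    have a1 : satStar PP 2 5 ≤ F.card := Nat.sInf_le ⟨F, hF, rfl⟩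
    haveI : Nonempty PP := ⟨(0 : Fin 7)⟩
    obtain ⟨G, hG⟩ := exists_saturated PP (Fin 2 → Fin 4)
    obtain ⟨G', hG', e⟩ : satStar PP 2 4 ∈
        {m | ∃ F : Finset (Fin 2 → Fin 4), Saturated PP F ∧ F.card = m} :=
      Nat.sInf_mem ⟨G.card, G, hG, rfl⟩
    have a2 := lower (P := PP) finFunctionFinEquiv (Equiv.refl (Fin 7)) (leG 4 2) rel h4 hrel 14 chk1
      G' hG'
    simp only [List.length_cons, List.length_nil] at hc
    omega

end Pool.Agent.Results.MP_8c6834_co.NotMonoSide
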